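import Pool.Agent.Q65.LK.HS1
import Pool.Agent.Q283.FG.Stm1

/-!
# Project FG (helper283), job HS1: the local symbols, finite and real places

The finite part is the proof of helper65 (`Pool.Agent.Q65.LK.hs1`), adapted.
-/

set_option autoImplicit false

namespace Pool.Agent.Q223.FG

open NumberField IsDedekindDomain Pool.Agent.Q7.LK Function
open Pool.Agent.Q65.LK hiding hs1
open Pool.Agent.Q283.FG

section Loc

variable {F : Type} [Field F] [NumberField F]

theorem exists_bd (w : HeightOneSpectrum (𝓞 F)) (x : F) :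
    ∃ m : ℕ, w.valuation F x ≤ WithZero.exp (m : ℤ) := by
  by_cases h0 : x = 0
  · exact ⟨0, by rw [h0, map_zero]; exact zero_le⟩
  · obtain ⟨k, hk⟩ := val_exp w _ h0
    refine ⟨k.natAbs, ?_⟩
    rw [hk, WithZero.exp_le_exp]
    exact Int.le_natAbs

/-- `A d + B d ^ 2` is small for small `d` -/
theorem small (w : HeightOneSpectrum (𝓞 F)) (A B s : F) (k : ℕ) : ∃ K : ℕ, ∀ d : F,
    w.valuation F d ≤ WithZero.exp (-(K : ℤ)) →
      w.valuation F ((A * d + B * d ^ 2) / s) < WithZero.exp (-(k : ℤ)) := by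
  obtain ⟨m1, h1⟩ := exists_bd w (A / s)
  obtain ⟨m2, h2⟩ := exists_bd w (B / s)
  refine ⟨m1 + m2 + k + 1, fun d hd => ?_⟩
  have h3 : (A * d + B * d ^ 2) / s = (A / s) * d + (B / s) * d ^ 2 := by ring
  rw [h3]
  refine (w.valuation F).map_add_lt ?_ ?_
  · rw [map_mul]
    refine lt_of_le_of_lt (mul_le_mul' h1 hd) ?_
    rw [← WithZero.exp_add, WithZero.exp_lt_exp]
    push_cast
    omega
  · rw [map_mul, map_pow, pow_two]
    refine lt_of_le_of_lt (mul_le_mul' h2 (mul_le_mul' hd hd)) ?_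
    rw [← WithZero.exp_add, ← WithZero.exp_add, WithZero.exp_lt_exp]
    push_cast
    omega

/-- a common bound at finitely many places -/
theorem uni (R : Set (HeightOneSpectrum (𝓞 F))) (hR : R.Finite)
    (P : HeightOneSpectrum (𝓞 F) → ℕ → Prop) (hP : ∀ w K K', K ≤ K' → P w K → P w K')
    (h : ∀ w ∈ R, ∃ K, P w K) : ∃ K, ∀ w ∈ R, P w K := by
  classical
  have h' : ∀ w, ∃ K, w ∈ R → P w K := fun w => by
    by_cases hw : w ∈ R
    · obtain ⟨K, hK⟩ := h w hw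
      exact ⟨K, fun _ => hK⟩
    · exact ⟨0, fun h => absurd h hw⟩
  choose K hK using h'
  exact ⟨hR.toFinset.sup K, fun w hw =>
    hP w _ _ (Finset.le_sup (f := K) (hR.mem_toFinset.2 hw)) (hK w hw)⟩

/-- a natural number which is divisible by finitely many places -/
theorem exists_nat (R : Set (HeightOneSpectrum (𝓞 F))) (hR : R.Finite) :
    ∃ N : ℕ, 0 < N ∧ ∀ w ∈ R, w.valuation F (N : F) ≤ WithZero.exp (-1 : ℤ) := by
  classical
  refine ⟨∏ w ∈ hR.toFinset, Ideal.absNorm w.asIdeal, Finset.prod_pos fun w _ => ?_,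
    fun w hw => ?_⟩
  · exact Nat.pos_of_ne_zero fun h => w.ne_bot (Ideal.absNorm_eq_zero_iff.1 h)
  · have h1 : ((∏ w ∈ hR.toFinset, Ideal.absNorm w.asIdeal : ℕ) : 𝓞 F) ∈ w.asIdeal := by
      rw [← Finset.mul_prod_erase _ _ (hR.mem_toFinset.2 hw), Nat.cast_mul]
      exact w.asIdeal.mul_mem_right _ (Ideal.absNorm_mem w.asIdeal)
    have h2 : w.valuation F (algebraMap (𝓞 F) F
        ((∏ w ∈ hR.toFinset, Ideal.absNorm w.asIdeal : ℕ) : 𝓞 F)) < 1 :=
      (w.valuation_lt_one_iff_mem _).2 h1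
    rw [map_natCast] at h2
    by_cases h0 : ((∏ w ∈ hR.toFinset, Ideal.absNorm w.asIdeal : ℕ) : F) = 0
    · rw [h0, map_zero]
      exact zero_le
    · obtain ⟨k, hk⟩ := val_exp w _ h0
      rw [hk] at h2 ⊢
      rw [← WithZero.exp_zero, WithZero.exp_lt_exp] at h2
      rw [WithZero.exp_le_exp]
      omega

theorem val_nat (w : HeightOneSpectrum (𝓞 F)) (t : ℕ) : w.valuation F (t : F) ≤ 1 := by
  have h := w.valuation_le_one (K := F) (t : 𝓞 F)
  change w.valuation F (algebraMap (𝓞 F) F (t : 𝓞 F)) ≤ 1 at h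
  rwa [map_natCast] at h

theorem val_Nt (w : HeightOneSpectrum (𝓞 F)) (N b t : ℕ)
    (hN : w.valuation F (N : F) ≤ WithZero.exp (-1 : ℤ)) :
    w.valuation F ((N ^ b * t : ℕ) : F) ≤ WithZero.exp (-(b : ℤ)) := by
  rw [Nat.cast_mul, Nat.cast_pow, map_mul, map_pow]
  have h1 : (w.valuation F (N : F)) ^ b ≤ WithZero.exp (-(b : ℤ)) := by
    refine (pow_le_pow_left' hN b).trans (le_of_eq ?_)
    rw [← WithZero.exp_nsmul]
    congr 1
    simp
  calc _ ≤ WithZero.exp (-(b : ℤ)) * 1 := mul_le_mul' h1 (val_nat w t)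
    _ = _ := mul_one _

/-- one natural number `d`, small at finitely many places and large -/
theorem exists_d (R : Set (HeightOneSpectrum (𝓞 F))) (hR : R.Finite) (K : ℕ) (T : ℝ) :
    ∃ d : ℕ, T ≤ d ∧ ∀ w ∈ R, w.valuation F (d : F) ≤ WithZero.exp (-(K : ℤ)) := by
  obtain ⟨N, hN0, hN⟩ := exists_nat R hR
  obtain ⟨t, ht⟩ := exists_nat_ge T
  refine ⟨N ^ K * t, ?_, fun w hw => val_Nt w N K t (hN w hw)⟩
  refine ht.trans ?_
  have h1 : 1 ≤ N ^ K := Nat.one_le_pow _ _ hN0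
  exact_mod_cast Nat.le_mul_of_pos_left t h1

end Loc

theorem large (α β γ : ℝ) (hγ : 0 < γ) : ∃ T : ℝ, ∀ d : ℝ, T ≤ d → 0 < α + β * d + γ * d ^ 2 := by
  refine ⟨(|α| + |β| + 1) / γ + 1, fun d hd => ?_⟩
  have h1 : 1 ≤ d := by
    have : 0 ≤ (|α| + |β| + 1) / γ := by positivity
    linarith
  have h2 : |α| + |β| + 1 ≤ γ * d := by
    have h3 : (|α| + |β| + 1) / γ ≤ d := by linarith
    rw [div_le_iff₀ hγ] at h3
    linarith
  have h4 : (|α| + |β| + 1) * d ≤ γ * d ^ 2 := by nlinarith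
  have h5 : -|α| ≤ α := neg_abs_le α
  have h6 : -|β| * d ≤ β * d := by
    have := neg_abs_le β
    nlinarith
  have h7 : |α| ≤ |α| * d := by
    have := abs_nonneg α
    nlinarith
  nlinarith

/-- a common bound for finitely many real places -/
theorem uniR {ι : Type} [Fintype ι] (P : ι → ℝ → Prop) (h : ∀ i, ∃ T, ∀ d, T ≤ d → P i d) :
    ∃ T, ∀ d, T ≤ d → ∀ i, P i d := by
  classical
  choose T hT using h
  refine ⟨∑ i, |T i|, fun d hd i => hT i d ?_⟩
  have h1 : |T i| ≤ ∑ i, |T i| :=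
    Finset.single_le_sum (f := fun i => |T i|) (fun _ _ => abs_nonneg _) (Finset.mem_univ i)
  have h2 := le_abs_self (T i)
  linarith

section Nrm

variable {F : Type} [Field F] [NumberField F]

/-- norms have even order where `c` is an unramified nonsquare -/
theorem nrm_out (hB : S_BAS) (ζ : F) (hζ : IsPrimitiveRoot ζ 2) (c : F) (hc : c ≠ 0)
    (v : HeightOneSpectrum (𝓞 F)) (h2 : ¬ Dp 2 v) (h0 : vl 2 v c = 0) (x z : F)
    (hn : x ^ 2 - c * z ^ 2 ≠ 0) : vl 2 v (x ^ 2 - c * z ^ 2) * sy 2 ζ v c = 0 := by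
  have : Fact (Nat.Prime 2) := ⟨Nat.prime_two⟩
  have hmul := (hB 2 F v).2.2.2.2.1
  have hsq : ∀ y : F, y ≠ 0 → vl 2 v (y ^ 2) = 0 := by
    intro y hy
    rw [pow_two, hmul y y hy hy, CharTwo.add_self_eq_zero]
  have hcz : ∀ y : F, y ≠ 0 → vl 2 v (c * y ^ 2) = 0 := by
    intro y hy
    rw [hmul c _ hc (pow_ne_zero _ hy), h0, hsq y hy, add_zero]
  have hval : ∀ a b : F, v.valuation F a = v.valuation F b → vl 2 v a = vl 2 v b := by
    intro a b hab
    unfold vl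
    rw [hab]
  by_cases hx : x = 0
  · have hz : z ≠ 0 := by
      rintro rfl
      apply hn
      rw [hx]
      ring
    have h1 : v.valuation F (x ^ 2 - c * z ^ 2) = v.valuation F (c * z ^ 2) := by
      rw [hx, ← Valuation.map_neg]
      congr 1
      ring
    rw [hval _ _ h1, hcz z hz, zero_mul]
  by_cases hz : z = 0
  · have h1 : x ^ 2 - c * z ^ 2 = x ^ 2 := by
      rw [hz]
      ring
    rw [h1, hsq x hx, zero_mul]
  rcases lt_trichotomy (v.valuation F (x ^ 2)) (v.valuation F (c * z ^ 2)) with h | h | h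
  · have h1 : v.valuation F (x ^ 2 - c * z ^ 2) = v.valuation F (c * z ^ 2) := by
      rw [← Valuation.map_neg, neg_sub, sub_eq_add_neg]
      rw [← Valuation.map_neg (v.valuation F) (x ^ 2)] at h
      exact (v.valuation F).map_add_eq_of_lt_left h
    rw [hval _ _ h1, hcz z hz, zero_mul]
  · -- the unit `u = c z² / x²`
    have hx2 : v.valuation F (x ^ 2) ≠ 0 := (Valuation.ne_zero_iff _).mpr (pow_ne_zero _ hx)
    have h3 : v.valuation F (c * (z / x) ^ 2) = 1 := by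
      have h4 : c * (z / x) ^ 2 = (c * z ^ 2) / x ^ 2 := by
        rw [div_pow, mul_div_assoc]
      rw [h4, map_div₀, ← h, div_self hx2]
    have h5 : v.valuation F (c * (z / x) ^ 2 - 1) ≤ 1 := by
      refine (v.valuation F).map_sub_le (le_of_eq h3) ?_
      rw [map_one]
    have h6 : v.valuation F (x ^ 2 - c * z ^ 2) =
        v.valuation F (x ^ 2) * v.valuation F (c * (z / x) ^ 2 - 1) := by
      rw [← map_mul, ← Valuation.map_neg]
      congr 1
      field_simp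
      ring
    rcases lt_or_eq_of_le h5 with h7 | h7
    · have h8 : Lpw 2 v c := by
        refine (hB 2 F v).2.2.2.2.2.1 c (z / x) ?_
        have h9 : v.valuation F (((2 : ℕ) : F) ^ 2) = 1 := by
          rw [map_pow]
          have h10 : v.valuation F (((2 : ℕ) : F)) = 1 := by
            refine le_antisymm (val_nat v 2) (not_lt.1 fun h11 => h2 ?_)
            have h12 : v.valuation F (algebraMap (𝓞 F) F ((2 : ℕ) : 𝓞 F)) < 1 := by
              rw [map_natCast]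
              exact h11
            exact (v.valuation_lt_one_iff_mem _).1 h12
          rw [h10, one_pow]
        rw [h9]
        exact h7
      rw [((hB 2 F v).2.2.2.2.2.2 h2 ζ hζ).2.2.2 c hc h0 |>.2 h8, mul_zero]
    · rw [h7, mul_one] at h6
      rw [hval _ _ h6, hsq x hx, zero_mul]
  · have h1 : v.valuation F (x ^ 2 - c * z ^ 2) = v.valuation F (x ^ 2) := by
      rw [sub_eq_add_neg]
      rw [← Valuation.map_neg (v.valuation F) (c * z ^ 2)] at h
      exact (v.valuation F).map_add_eq_of_lt_left h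
    rw [hval _ _ h1, hsq x hx, zero_mul]

/-- norms near a norm at one place of `R`, near `1` at the others, and positive -/
theorem nrm_fin (c : F) (R : Set (HeightOneSpectrum (𝓞 F))) (hR : R.Finite) (k : ℕ)
    (v : HeightOneSpectrum (𝓞 F)) (hv : v ∈ R) (x z : F) (hn : x ^ 2 - c * z ^ 2 ≠ 0) :
    ∃ x' z' : F, x' ^ 2 - c * z' ^ 2 ≠ 0 ∧
      Cl k v ((x' ^ 2 - c * z' ^ 2) / (x ^ 2 - c * z ^ 2)) ∧
      (∀ w ∈ R, w ≠ v → Cl k w (x' ^ 2 - c * z' ^ 2)) ∧
      ∀ φ : F →+* ℝ, 0 < φ (x' ^ 2 - c * z' ^ 2) := by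
  classical
  -- first step
  obtain ⟨K1, hK1⟩ : ∃ K : ℕ, ∀ w ∈ R, ∀ d : F, w.valuation F d ≤ WithZero.exp (-(K : ℤ)) →
      w.valuation F ((2 * (x - 1) * d + ((x - 1) ^ 2 - c * z ^ 2) * d ^ 2) / 1) <
        WithZero.exp (-(k : ℤ)) := by
    refine uni R hR _ ?_ fun w _ => small w _ _ _ k
    intro w K K' hKK h d hd
    refine h d (hd.trans ?_)
    rw [WithZero.exp_le_exp]
    omega
  obtain ⟨K2, hK2⟩ := small v (2 * (x - 1) + 2 * ((x - 1) ^ 2 - c * z ^ 2))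
    ((x - 1) ^ 2 - c * z ^ 2) (x ^ 2 - c * z ^ 2) k
  obtain ⟨e, he⟩ := approxA hR.toFinset (fun w => if w = v then 1 else 0) (K1 + K2)
  have he1 : v.valuation F (e - 1) ≤ WithZero.exp (-(K2 : ℤ)) := by
    have h := he v (hR.mem_toFinset.2 hv)
    rw [if_pos rfl] at h
    refine h.trans ?_
    rw [WithZero.exp_le_exp]
    omega
  have he2 : ∀ w ∈ R, w ≠ v → w.valuation F e ≤ WithZero.exp (-(K1 : ℤ)) := by
    intro w hw hwv
    have h := he w (hR.mem_toFinset.2 hw)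
    rw [if_neg hwv, sub_zero] at h
    refine h.trans ?_
    rw [WithZero.exp_le_exp]
    omega
  set X := 1 + e * (x - 1) with hX
  set Z := e * z with hZ
  have hfv : v.valuation F ((X ^ 2 - c * Z ^ 2 - (x ^ 2 - c * z ^ 2)) / (x ^ 2 - c * z ^ 2)) <
      WithZero.exp (-(k : ℤ)) := by
    have h := hK2 (e - 1) he1
    have h1 : X ^ 2 - c * Z ^ 2 - (x ^ 2 - c * z ^ 2) =
        (2 * (x - 1) + 2 * ((x - 1) ^ 2 - c * z ^ 2)) * (e - 1) +
          ((x - 1) ^ 2 - c * z ^ 2) * (e - 1) ^ 2 := by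
      rw [hX, hZ]
      ring
    rw [h1]
    exact h
  have hfw : ∀ w ∈ R, w ≠ v → w.valuation F (X ^ 2 - c * Z ^ 2 - 1) <
      WithZero.exp (-(k : ℤ)) := by
    intro w hw hwv
    have h := hK1 w hw e (he2 w hw hwv)
    have h1 : X ^ 2 - c * Z ^ 2 - 1 =
        (2 * (x - 1) * e + ((x - 1) ^ 2 - c * z ^ 2) * e ^ 2) / 1 := by
      rw [hX, hZ]
      ring
    rw [h1]
    exact h
  -- second step
  obtain ⟨K3, hK3⟩ : ∃ K : ℕ, ∀ w ∈ R, ∀ d : F, w.valuation F d ≤ WithZero.exp (-(K : ℤ)) →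
      w.valuation F ((2 * X * d + 1 * d ^ 2) / 1) < WithZero.exp (-(k : ℤ)) := by
    refine uni R hR _ ?_ fun w _ => small w _ _ _ k
    intro w K K' hKK h d hd
    refine h d (hd.trans ?_)
    rw [WithZero.exp_le_exp]
    omega
  obtain ⟨K4, hK4⟩ := small v (2 * X) 1 (x ^ 2 - c * z ^ 2) k
  obtain ⟨T, hT⟩ := uniR (fun (φ : F →+* ℝ) (d : ℝ) =>
    0 < φ (X ^ 2 - c * Z ^ 2) + φ (2 * X) * d + 1 * d ^ 2) fun φ => large _ _ _ one_pos
  obtain ⟨d, hd1, hd2⟩ := exists_d R hR (K3 + K4) T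
  have hn' : (X + d) ^ 2 - c * Z ^ 2 = (X ^ 2 - c * Z ^ 2) + (2 * X * d + 1 * (d : F) ^ 2) := by
    ring
  have hv' : Cl k v (((X + d) ^ 2 - c * Z ^ 2) / (x ^ 2 - c * z ^ 2)) := by
    unfold Cl
    have h1 : ((X + d) ^ 2 - c * Z ^ 2) / (x ^ 2 - c * z ^ 2) - 1 =
        (X ^ 2 - c * Z ^ 2 - (x ^ 2 - c * z ^ 2)) / (x ^ 2 - c * z ^ 2) +
          (2 * X * d + 1 * (d : F) ^ 2) / (x ^ 2 - c * z ^ 2) := by
      rw [hn', ← add_div, div_sub_one hn]
      congr 1
      ring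
    rw [h1]
    refine (v.valuation F).map_add_lt hfv (hK4 _ ((hd2 v hv).trans ?_))
    rw [WithZero.exp_le_exp]
    push_cast
    omega
  refine ⟨X + d, Z, ?_, hv', ?_, ?_⟩
  · intro h0
    have h1 := hv'.val
    rw [h0, zero_div, map_zero] at h1
    exact zero_ne_one h1
  · intro w hw hwv
    unfold Cl
    have h1 : (X + d) ^ 2 - c * Z ^ 2 - 1 =
        (X ^ 2 - c * Z ^ 2 - 1) + (2 * X * d + 1 * (d : F) ^ 2) / 1 := by
      rw [hn', div_one]
      ring
    rw [h1]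
    refine (w.valuation F).map_add_lt (hfw w hw hwv) (hK3 w hw _ ((hd2 w hw).trans ?_))
    rw [WithZero.exp_le_exp]
    push_cast
    omega
  · intro φ
    have h1 := hT (d : ℝ) hd1 φ
    rw [hn']
    rw [map_add, map_add, map_mul, map_mul φ 1, map_one, map_pow, map_natCast]
    linarith

/-- norms near `1` at the places of `R`, negative at one real place and positive at the others -/
theorem nrm_real (hA : S_APX) (c : F) (R : Set (HeightOneSpectrum (𝓞 F)))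
    (hR : R.Finite) (k : ℕ) (φ : F →+* ℝ) (x z : F) (hn : φ (x ^ 2 - c * z ^ 2) < 0) :
    ∃ x' z' : F, x' ^ 2 - c * z' ^ 2 ≠ 0 ∧ (∀ w ∈ R, Cl k w (x' ^ 2 - c * z' ^ 2)) ∧
      φ (x' ^ 2 - c * z' ^ 2) < 0 ∧
      ∀ ψ : F →+* ℝ, ψ ≠ φ → 0 < ψ (x' ^ 2 - c * z' ^ 2) := by
  classical
  have hcφ : 0 < φ c := by
    by_contra h
    rw [map_sub, map_mul, map_pow, map_pow] at hn
    nlinarith [sq_nonneg (φ x), sq_nonneg (φ z)]
  -- a number with signs
  obtain ⟨a, ha0, -, ha⟩ := hA F ∅ 0 (fun _ => 1) (fun ψ => if ψ = φ then 1 else -1)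
    (fun _ => one_ne_zero) (fun ψ => by
      show (if ψ = φ then (1 : F) else -1) ≠ 0
      split_ifs
      · exact one_ne_zero
      · exact neg_ne_zero.2 one_ne_zero)
  have ha1 : 0 < φ a := by
    have h := ha φ
    rwa [if_pos rfl, mul_one] at h
  have ha2 : ∀ ψ, ψ ≠ φ → ψ a < 0 := by
    intro ψ hψ
    have h := ha ψ
    rw [if_neg hψ, mul_neg, mul_one, map_neg] at h
    linarith
  -- `h` is large at `φ`, small at the others
  obtain ⟨S, hS⟩ : ∃ S : ℕ, 0 < S ∧ ∀ ψ : F →+* ℝ, |ψ a| < S := by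
    obtain ⟨S, hS⟩ := exists_nat_gt (∑ ψ : F →+* ℝ, |ψ a|)
    refine ⟨S, ?_, fun ψ => lt_of_le_of_lt (Finset.single_le_sum (f := fun ψ : F →+* ℝ => |ψ a|)
      (fun _ _ => abs_nonneg _) (Finset.mem_univ ψ)) hS⟩
    have h1 : (0 : ℝ) ≤ ∑ ψ : F →+* ℝ, |ψ a| := Finset.sum_nonneg fun _ _ => abs_nonneg _
    have h2 : (0 : ℝ) < S := lt_of_le_of_lt h1 hS
    exact_mod_cast h2
  obtain ⟨hS0, hS1⟩ := hS
  have hS0' : (0 : ℝ) < S := by exact_mod_cast hS0
  have hh : ∀ ψ : F →+* ℝ, ψ (1 + a / S) = 1 + ψ a / S := by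
    intro ψ
    rw [map_add, map_one, map_div₀, map_natCast]
  have hh1 : 1 < φ (1 + a / S) := by
    rw [hh]
    have : 0 < φ a / S := div_pos ha1 hS0'
    linarith
  have hh2 : ∀ ψ : F →+* ℝ, ψ ≠ φ → |ψ (1 + a / S)| < 1 := by
    intro ψ hψ
    rw [hh, abs_lt]
    have h1 : ψ a / S < 0 := div_neg_of_neg_of_pos (ha2 ψ hψ) hS0'
    have h2 : -1 < ψ a / S := by
      rw [lt_div_iff₀ hS0']
      have := (abs_lt.1 (hS1 ψ)).1
      linarith
    constructor <;> linarith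
  -- a power
  obtain ⟨m, hm1, hm2⟩ : ∃ m : ℕ, 1 < φ (c * ((1 + a / S) ^ m) ^ 2) ∧
      ∀ ψ : F →+* ℝ, ψ ≠ φ → ψ (c * ((1 + a / S) ^ m) ^ 2) < 1 := by
    have e1 : ∀ᶠ m : ℕ in Filter.atTop, 1 < φ (c * ((1 + a / S) ^ m) ^ 2) := by
      have h1 := (tendsto_pow_atTop_atTop_of_one_lt hh1).eventually_gt_atTop ((φ c)⁻¹ + 1)
      filter_upwards [h1] with m hm
      rw [map_mul, map_pow, map_pow]
      have h2 : 0 < (φ c)⁻¹ := inv_pos.2 hcφ
      have h3 : (φ c)⁻¹ < (φ (1 + a / S) ^ m) ^ 2 := by nlinarith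
      calc (1 : ℝ) = φ c * (φ c)⁻¹ := (mul_inv_cancel₀ hcφ.ne').symm
        _ < _ := mul_lt_mul_of_pos_left h3 hcφ
    have e2 : ∀ ψ : F →+* ℝ, ∀ᶠ m : ℕ in Filter.atTop, ψ ≠ φ →
        ψ (c * ((1 + a / S) ^ m) ^ 2) < 1 := by
      intro ψ
      by_cases hψ : ψ = φ
      · exact Filter.Eventually.of_forall fun m h => absurd hψ h
      have h1 : Filter.Tendsto (fun m : ℕ => ψ c * (ψ (1 + a / S) ^ m) ^ 2) Filter.atTop
          (nhds (ψ c * 0 ^ 2)) :=
        ((tendsto_pow_atTop_nhds_zero_of_abs_lt_one (hh2 ψ hψ)).pow 2).const_mul _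
      have h2 := h1.eventually (gt_mem_nhds (show ψ c * 0 ^ 2 < 1 by norm_num))
      filter_upwards [h2] with m hm _
      rw [map_mul, map_pow, map_pow]
      exact hm
    obtain ⟨m, hm⟩ := (e1.and (Filter.eventually_all.2 e2)).exists
    exact ⟨m, hm.1, hm.2⟩
  set g : F := (1 + a / S) ^ m with hg
  obtain ⟨K, hK⟩ : ∃ K : ℕ, ∀ w ∈ R, ∀ d : F, w.valuation F d ≤ WithZero.exp (-(K : ℤ)) →
      w.valuation F ((2 * d + (1 - c * g ^ 2) * d ^ 2) / 1) < WithZero.exp (-(k : ℤ)) := by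
    refine uni R hR _ ?_ fun w _ => small w _ _ _ k
    intro w K K' hKK h d hd
    refine h d (hd.trans ?_)
    rw [WithZero.exp_le_exp]
    omega
  obtain ⟨T1, hT1⟩ := large (-1) (-2) (φ (c * g ^ 2) - 1) (by linarith)
  obtain ⟨T2, hT2⟩ := uniR (fun (ψ : F →+* ℝ) (d : ℝ) =>
    ψ ≠ φ → 0 < 1 + 2 * d + (1 - ψ (c * g ^ 2)) * d ^ 2) fun ψ => by
      by_cases hψ : ψ = φ
      · exact ⟨0, fun _ _ h => absurd hψ h⟩
      · obtain ⟨T, hT⟩ := large 1 2 (1 - ψ (c * g ^ 2)) (by linarith [hm2 ψ hψ])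
        exact ⟨T, fun d hd _ => hT d hd⟩
  obtain ⟨d, hd1, hd2⟩ := exists_d R hR K (max T1 T2)
  have hn' : (1 + (d : F)) ^ 2 - c * (d * g) ^ 2 = 1 + (2 * (d : F) + (1 - c * g ^ 2) * d ^ 2) := by
    ring
  have hψ' : ∀ ψ : F →+* ℝ, ψ ((1 + (d : F)) ^ 2 - c * (d * g) ^ 2) =
      1 + 2 * (d : ℝ) + (1 - ψ (c * g ^ 2)) * (d : ℝ) ^ 2 := by
    intro ψ
    rw [hn', map_add, map_add, map_mul, map_mul, map_sub, map_one, map_pow, map_natCast,
      map_ofNat]
    ring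
  have hneg : φ ((1 + (d : F)) ^ 2 - c * (d * g) ^ 2) < 0 := by
    have h1 := hT1 (d : ℝ) ((le_max_left _ _).trans hd1)
    rw [hψ']
    linarith
  refine ⟨1 + d, d * g, ?_, ?_, hneg, ?_⟩
  · intro h0
    rw [h0, map_zero] at hneg
    exact lt_irrefl _ hneg
  · intro w hw
    unfold Cl
    have h1 : (1 + (d : F)) ^ 2 - c * (d * g) ^ 2 - 1 =
        (2 * (d : F) + (1 - c * g ^ 2) * d ^ 2) / 1 := by
      rw [hn', div_one]
      ring
    rw [h1]
    exact hK w hw _ (hd2 w hw)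
  · intro ψ hψ
    rw [hψ']
    exact hT2 (d : ℝ) ((le_max_right _ _).trans hd1) ψ hψ

end Nrm

/-- **HS1** -/
theorem hs1 (hB : Pool.Agent.Q7.LK.S_BAS) (hAPX : Pool.Agent.Q283.FG.S_APX)
    (hHSA : Pool.Agent.Q283.FG.S_HSA) : Pool.Agent.Q283.FG.S_HS1 := by
  classical
  have : Fact (Nat.Prime 2) := ⟨Nat.prime_two⟩
  intro F _ _ ζ hζ c hc
  by_cases hpow : IsPow 2 c
  · -- the trivial case
    obtain ⟨x, rfl⟩ := hpow
    have hx : x ≠ 0 := by
      rintro rfl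
      apply hc
      ring
    refine ⟨fun _ _ => 0, fun _ _ => 0, fun _ _ _ _ _ => (add_zero 0).symm,
      fun _ _ _ _ _ => (add_zero 0).symm, fun a _ => ⟨?_, ?_⟩,
      fun _ _ _ => rfl, fun _ _ _ => rfl, ?_, fun _ _ _ => ⟨fun _ => rfl, fun _ => rfl⟩⟩
    · refine Set.finite_empty.subset fun v hv => ?_
      exact hv rfl
    · rw [finsum_zero, finsum_zero, add_zero]
    · intro v hv h0 a _
      have h1 := ((hB 2 F v).2.2.2.2.2.2 hv ζ hζ).2.2.2 (x ^ 2) hc h0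
      rw [h1.2 ((hB 2 F v).2.2.1 x hx), mul_zero]
  obtain ⟨hR, k, hk⟩ := hHSA F ζ hζ c hc hpow
  set R : Set (HeightOneSpectrum (𝓞 F)) := {v | Dp 2 v ∨ vl 2 v c ≠ 0} with hRdef
  have hk' : ∀ x : F, x ≠ 0 → (∀ v ∈ R, Cl k v x) → (∀ φ : F →+* ℝ, 0 < φ x) →
      ph 2 ζ c x = 0 := by
    intro x hx h h'
    rw [← ph_eq]
    exact (hk x hx (fun v hv => h v hv) h').2
  -- the approximations
  have hapx : ∀ (v : HeightOneSpectrum (𝓞 F)) (a : F), ∃ e : F, v ∈ R → a ≠ 0 →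
      e ≠ 0 ∧ Cl k v (e / a) ∧ (∀ w ∈ R, w ≠ v → Cl k w e) ∧ ∀ φ : F →+* ℝ, 0 < φ e := by
    intro v a
    by_cases h : v ∈ R ∧ a ≠ 0
    · obtain ⟨e, he0, he1, he2⟩ := hAPX F hR.toFinset k (fun w => if w = v then a else 1)
        (fun _ => 1) (fun w => by
          show (if w = v then a else 1) ≠ 0
          split_ifs
          · exact h.2
          · exact one_ne_zero) (fun _ => one_ne_zero)
      refine ⟨e, fun _ _ => ⟨he0, ?_, fun w hw hwv => ?_, fun φ => ?_⟩⟩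
      · have h1 := he1 v (hR.mem_toFinset.2 h.1)
        rw [if_pos rfl] at h1
        exact h1
      · have h1 := he1 w (hR.mem_toFinset.2 hw)
        rw [if_neg hwv, div_one] at h1
        exact h1
      · have h1 := he2 φ
        rwa [mul_one] at h1
    · exact ⟨0, fun h1 h2 => absurd ⟨h1, h2⟩ h⟩
  choose E hE using hapx
  have hapy : ∀ (φ : F →+* ℝ) (a : F), ∃ e : F, a ≠ 0 →
      e ≠ 0 ∧ (∀ w ∈ R, Cl k w e) ∧ 0 < φ (e * a) ∧ ∀ ψ : F →+* ℝ, ψ ≠ φ → 0 < ψ e := by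
    intro φ a
    by_cases h : a ≠ 0
    · obtain ⟨e, he0, he1, he2⟩ := hAPX F hR.toFinset k (fun _ => 1)
        (fun ψ => if ψ = φ then a else 1) (fun _ => one_ne_zero) (fun ψ => by
          show (if ψ = φ then a else 1) ≠ 0
          split_ifs
          · exact h
          · exact one_ne_zero)
      refine ⟨e, fun _ => ⟨he0, fun w hw => ?_, ?_, fun ψ hψ => ?_⟩⟩
      · have h1 := he1 w (hR.mem_toFinset.2 hw)
        rw [div_one] at h1
        exact h1
      · have h1 := he2 φ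
        rwa [if_pos rfl] at h1
      · have h1 := he2 ψ
        rwa [if_neg hψ, mul_one] at h1
    · exact ⟨0, fun h1 => absurd h1 h⟩
  choose G hG using hapy
  let τ : HeightOneSpectrum (𝓞 F) → F → ZMod 2 := fun v a =>
    if v ∈ R then - ph 2 ζ c (E v a) else vl 2 v a * sy 2 ζ v c
  let σ : (F →+* ℝ) → F → ZMod 2 := fun φ a => - ph 2 ζ c (G φ a)
  have hτ1 : ∀ v, v ∈ R → ∀ a, τ v a = - ph 2 ζ c (E v a) := fun v hv a => if_pos hv
  have hτ2 : ∀ v, v ∉ R → ∀ a, τ v a = vl 2 v a * sy 2 ζ v c := fun v hv a => if_neg hv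
  have hσ1 : ∀ φ a, σ φ a = - ph 2 ζ c (G φ a) := fun φ a => rfl
  -- independence of the approximation
  have key : ∀ v ∈ R, ∀ a : F, a ≠ 0 → ∀ e : F, e ≠ 0 → Cl k v (e / a) →
      (∀ w ∈ R, w ≠ v → Cl k w e) → (∀ φ : F →+* ℝ, 0 < φ e) → τ v a = - ph 2 ζ c e := by
    intro v hv a ha e he h1 h2 h2'
    rw [hτ1 v hv]
    obtain ⟨h3, h4, h5, h5'⟩ := hE v a hv ha
    have h6 : ph 2 ζ c (E v a * e⁻¹) = 0 := by
      refine hk' _ (mul_ne_zero h3 (inv_ne_zero he)) (fun w hw => ?_) fun φ => ?_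
      · by_cases hwv : w = v
        · subst hwv
          have h7 : E w a * e⁻¹ = (E w a / a) * (e / a)⁻¹ := by field_simp
          rw [h7]
          exact h4.mul h1.inv
        · exact (h5 w hw hwv).mul (h2 w hw hwv).inv
      · rw [map_mul, map_inv₀]
        exact mul_pos (h5' φ) (inv_pos.2 (h2' φ))
    have h8 := ph_mul 2 hB ζ c (E v a * e⁻¹) e (mul_ne_zero h3 (inv_ne_zero he)) he
    rw [h6, zero_add] at h8
    have h9 : E v a * e⁻¹ * e = E v a := by field_simp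
    rw [h9] at h8
    rw [h8]
  have keyR : ∀ (φ : F →+* ℝ) (a : F), a ≠ 0 → ∀ e : F, e ≠ 0 →
      (∀ w ∈ R, Cl k w e) → 0 < φ (e * a) → (∀ ψ : F →+* ℝ, ψ ≠ φ → 0 < ψ e) →
      σ φ a = - ph 2 ζ c e := by
    intro φ a ha e he h1 h2 h2'
    rw [hσ1]
    obtain ⟨h3, h4, h5, h5'⟩ := hG φ a ha
    have h6 : ph 2 ζ c (G φ a * e⁻¹) = 0 := by
      refine hk' _ (mul_ne_zero h3 (inv_ne_zero he)) (fun w hw => (h4 w hw).mul (h1 w hw).inv)
        fun ψ => ?_
      by_cases hψ : ψ = φ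
      · subst hψ
        have h7 : G ψ a * e⁻¹ = (G ψ a * a) * (e * a)⁻¹ := by field_simp
        rw [h7, map_mul, map_inv₀]
        exact mul_pos h5 (inv_pos.2 h2)
      · rw [map_mul, map_inv₀]
        exact mul_pos (h5' ψ hψ) (inv_pos.2 (h2' ψ hψ))
    have h8 := ph_mul 2 hB ζ c (G φ a * e⁻¹) e (mul_ne_zero h3 (inv_ne_zero he)) he
    rw [h6, zero_add] at h8
    have h9 : G φ a * e⁻¹ * e = G φ a := by field_simp
    rw [h9] at h8
    rw [h8]
  have hmul : ∀ v a b, a ≠ 0 → b ≠ 0 → τ v (a * b) = τ v a + τ v b := by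
    intro v a b ha hb
    by_cases hv : v ∈ R
    · obtain ⟨h3, h4, h5, h5'⟩ := hE v a hv ha
      obtain ⟨h6, h7, h8, h8'⟩ := hE v b hv hb
      rw [key v hv (a * b) (mul_ne_zero ha hb) (E v a * E v b) (mul_ne_zero h3 h6) ?_ ?_ ?_,
        ph_mul 2 hB ζ c _ _ h3 h6, hτ1 v hv, hτ1 v hv]
      · ring
      · have h9 : E v a * E v b / (a * b) = (E v a / a) * (E v b / b) := by field_simp
        rw [h9]
        exact h4.mul h7
      · exact fun w hw hwv => (h5 w hw hwv).mul (h8 w hw hwv)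
      · intro φ
        rw [map_mul]
        exact mul_pos (h5' φ) (h8' φ)
    · rw [hτ2 v hv, hτ2 v hv, hτ2 v hv, (hB 2 F v).2.2.2.2.1 a b ha hb]
      ring
  have hmulR : ∀ φ a b, a ≠ 0 → b ≠ 0 → σ φ (a * b) = σ φ a + σ φ b := by
    intro φ a b ha hb
    obtain ⟨h3, h4, h5, h5'⟩ := hG φ a ha
    obtain ⟨h6, h7, h8, h8'⟩ := hG φ b hb
    rw [keyR φ (a * b) (mul_ne_zero ha hb) (G φ a * G φ b) (mul_ne_zero h3 h6) ?_ ?_ ?_,
      ph_mul 2 hB ζ c _ _ h3 h6, hσ1, hσ1]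
    · ring
    · exact fun w hw => (h4 w hw).mul (h7 w hw)
    · have h9 : G φ a * G φ b * (a * b) = (G φ a * a) * (G φ b * b) := by ring
      rw [h9, map_mul]
      exact mul_pos h5 h8
    · intro ψ hψ
      rw [map_mul]
      exact mul_pos (h5' ψ hψ) (h8' ψ hψ)
  have hsum : ∀ a, a ≠ 0 → {v | τ v a ≠ 0}.Finite ∧ ∑ᶠ v, τ v a + ∑ᶠ φ, σ φ a = 0 := by
    intro a ha
    have hfin : {v | τ v a ≠ 0}.Finite := by
      refine (hR.union (fin_vl 2 a ha)).subset fun v hv => ?_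
      by_cases h : v ∈ R
      · exact Or.inl h
      · refine Or.inr fun h0 => hv ?_
        rw [hτ2 v h, h0, zero_mul]
    refine ⟨hfin, ?_⟩
    have h1 : ∀ v, τ v a = (if v ∈ R then τ v a else 0) + gg 2 ζ c v a := by
      intro v
      unfold gg
      by_cases h : v ∈ R
      · have h' : Dp 2 v ∨ vl 2 v c ≠ 0 := h
        rw [if_pos h, if_pos h', add_zero]
      · have h' : ¬ (Dp 2 v ∨ vl 2 v c ≠ 0) := h
        rw [if_neg h, if_neg h', zero_add, hτ2 v h]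
    have hs1 : (support fun v => if v ∈ R then τ v a else 0) ⊆ (hR.toFinset : Set _) := by
      intro v hv
      rw [Set.Finite.coe_toFinset]
      by_contra h
      apply hv
      exact if_neg h
    rw [finsum_congr h1, finsum_add_distrib ((Finset.finite_toSet _).subset hs1) (gg_fin 2 ζ c a ha),
      finsum_eq_sum_of_support_subset _ hs1,
      finsum_eq_sum_of_fintype (fun φ : F →+* ℝ => σ φ a)]
    have h2 : ∑ v ∈ hR.toFinset, (if v ∈ R then τ v a else 0) =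
        - ph 2 ζ c (∏ v ∈ hR.toFinset, E v a) := by
      rw [ph_prod 2 hB ζ c _ _ fun v hv => (hE v a (hR.mem_toFinset.1 hv) ha).1,
        ← Finset.sum_neg_distrib]
      refine Finset.sum_congr rfl fun v hv => ?_
      rw [if_pos (hR.mem_toFinset.1 hv), hτ1 v (hR.mem_toFinset.1 hv)]
    have h2' : ∑ φ : F →+* ℝ, σ φ a = - ph 2 ζ c (∏ φ : F →+* ℝ, G φ a) := by
      rw [ph_prod 2 hB ζ c _ _ fun φ _ => (hG φ a ha).1, ← Finset.sum_neg_distrib]
    have h3 : ∏ v ∈ hR.toFinset, E v a ≠ 0 :=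
      Finset.prod_ne_zero_iff.2 fun v hv => (hE v a (hR.mem_toFinset.1 hv) ha).1
    have h3' : ∏ φ : F →+* ℝ, G φ a ≠ 0 :=
      Finset.prod_ne_zero_iff.2 fun φ _ => (hG φ a ha).1
    set P := ∏ v ∈ hR.toFinset, E v a with hP
    set P' := ∏ φ : F →+* ℝ, G φ a with hP'
    have h4 : ph 2 ζ c (a * (P * P')⁻¹) = 0 := by
      refine hk' _ (mul_ne_zero ha (inv_ne_zero (mul_ne_zero h3 h3'))) (fun w hw => ?_) fun φ => ?_
      · have hw' : w ∈ hR.toFinset := hR.mem_toFinset.2 hw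
        have h5 : a * (P * P')⁻¹ =
            ((E w a / a) * (∏ v ∈ hR.toFinset.erase w, E v a) * P')⁻¹ := by
          rw [hP, ← Finset.mul_prod_erase _ _ hw']
          field_simp
        rw [h5]
        refine Cl.inv ((((hE w a hw ha).2.1).mul (Cl.prod _ _ fun v hv => ?_)).mul
          (Cl.prod _ _ fun φ _ => (hG φ a ha).2.1 w hw))
        rw [Finset.mem_erase] at hv
        exact (hE v a (hR.mem_toFinset.1 hv.2) ha).2.2.1 w hw fun h => hv.1 h.symm
      · have h5 : P' = G φ a * ∏ ψ ∈ Finset.univ.erase φ, G ψ a :=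
          (Finset.mul_prod_erase _ _ (Finset.mem_univ φ)).symm
        have h6 : 0 < φ P := by
          rw [hP, map_prod]
          exact Finset.prod_pos fun v hv => (hE v a (hR.mem_toFinset.1 hv) ha).2.2.2 φ
        have h7 : 0 < φ (∏ ψ ∈ Finset.univ.erase φ, G ψ a) := by
          rw [map_prod]
          refine Finset.prod_pos fun ψ hψ => ?_
          exact (hG ψ a ha).2.2.2 φ fun h => (Finset.ne_of_mem_erase hψ) h.symm
        have h8 : 0 < φ (G φ a * a) := (hG φ a ha).2.2.1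
        have h9 : 0 < φ (P * P' * a) := by
          have h10 : P * P' * a = P * (∏ ψ ∈ Finset.univ.erase φ, G ψ a) * (G φ a * a) := by
            rw [h5]
            ring
          rw [h10, map_mul, map_mul]
          exact mul_pos (mul_pos h6 h7) h8
        have h11 : a * (P * P')⁻¹ = (P * P' * a) * ((P * P')⁻¹) ^ 2 := by
          have h12 := mul_ne_zero h3 h3'
          field_simp
        rw [h11, map_mul, map_pow]
        refine mul_pos h9 (sq_pos_of_ne_zero ?_)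
        rw [map_inv₀]
        exact inv_ne_zero ((map_ne_zero φ).2 (mul_ne_zero h3 h3'))
    have h6 := ph_mul 2 hB ζ c (a * (P * P')⁻¹) (P * P')
      (mul_ne_zero ha (inv_ne_zero (mul_ne_zero h3 h3'))) (mul_ne_zero h3 h3')
    have h7 : a * (P * P')⁻¹ * (P * P') = a := by
      field_simp
    rw [h7, h4, zero_add, ph_mul 2 hB ζ c _ _ h3 h3'] at h6
    rw [h2, h2']
    show - ph 2 ζ c P + ph 2 ζ c a + - ph 2 ζ c P' = 0
    rw [h6]
    ring
  have hpw : ∀ v a, Lpw 2 v a → τ v a = 0 := by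
    intro v a hva
    have ha : a ≠ 0 := ((hB 2 F v).1 a hva).1
    by_cases hv : v ∈ R
    · obtain ⟨x, hx⟩ := hva k
      have hx0 : x ≠ 0 := by
        rintro rfl
        rw [zero_pow two_ne_zero, mul_zero, zero_sub, Valuation.map_neg, map_one,
          ← WithZero.exp_zero, WithZero.exp_lt_exp] at hx
        omega
      have hax : a * x ^ 2 ≠ 0 := mul_ne_zero ha (pow_ne_zero _ hx0)
      have h1 : τ v (a * x ^ 2) = - ph 2 ζ c 1 := by
        refine key v hv _ hax 1 one_ne_zero ?_ (fun w _ _ => Cl.one k w) fun φ => ?_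
        · rw [one_div]
          exact Cl.inv hx
        · rw [map_one]
          exact one_pos
      rw [ph_one 2 hB, neg_zero, hmul v _ _ ha (pow_ne_zero _ hx0), pow_two,
        hmul v _ _ hx0 hx0, CharTwo.add_self_eq_zero, add_zero] at h1
      exact h1
    · rw [hτ2 v hv, ((hB 2 F v).1 a hva).2, zero_mul]
  have hpos : ∀ (φ : F →+* ℝ) (a : F), 0 < φ a → σ φ a = 0 := by
    intro φ a ha
    have ha0 : a ≠ 0 := by
      rintro rfl
      rw [map_zero] at ha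
      exact lt_irrefl _ ha
    have h1 : σ φ a = - ph 2 ζ c 1 := by
      refine keyR φ a ha0 1 one_ne_zero (fun w _ => Cl.one k w) ?_ fun ψ _ => ?_
      · rwa [one_mul]
      · rw [map_one]
        exact one_pos
    rw [h1, ph_one 2 hB, neg_zero]
  have hout : ∀ (x z : F), x ^ 2 - c * z ^ 2 ≠ 0 → ∀ v, v ∉ R →
      vl 2 v (x ^ 2 - c * z ^ 2) * sy 2 ζ v c = 0 := by
    intro x z hn v hv
    refine nrm_out hB ζ hζ c hc v (fun h => hv (Or.inl h)) ?_ x z hn
    by_contra h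
    exact hv (Or.inr h)
  have hph : ∀ (x z : F), x ^ 2 - c * z ^ 2 ≠ 0 → ph 2 ζ c (x ^ 2 - c * z ^ 2) = 0 := by
    intro x z hn
    unfold ph
    have h4 : ∀ w, gg 2 ζ c w (x ^ 2 - c * z ^ 2) = 0 := by
      intro w
      unfold gg
      by_cases hw : Dp 2 w ∨ vl 2 w c ≠ 0
      · rw [if_pos hw]
      · rw [if_neg hw]
        exact hout x z hn w hw
    rw [finsum_congr h4, finsum_zero]
  refine ⟨τ, σ, hmul, hmulR, hsum, hpw, hpos, ?_, ?_⟩
  · intro v hv h0 a _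
    refine hτ2 v ?_ a
    rintro (h | h)
    · exact hv h
    · exact h h0
  · intro x z hn
    refine ⟨fun v => ?_, fun φ => ?_⟩
    · by_cases hv : v ∈ R
      · obtain ⟨x', z', h0, h1, h2, h3⟩ := nrm_fin c R hR k v hv x z hn
        rw [key v hv _ hn _ h0 h1 h2 h3, hph x' z' h0, neg_zero]
      · rw [hτ2 v hv]
        exact hout x z hn v hv
    · rcases lt_or_gt_of_ne ((map_ne_zero φ).2 hn) with h | h
      · obtain ⟨x', z', h0, h1, h2, h3⟩ := nrm_real hAPX c R hR k φ x z h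
        rw [keyR φ _ hn _ h0 h1 ?_ h3, hph x' z' h0, neg_zero]
        rw [map_mul]
        exact mul_pos_of_neg_of_neg h2 h
      · exact hpos φ _ h

end Pool.Agent.Q223.FG
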